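import Pool.Agent.Work.MP_968e92_nt.Main

/-!
# Zeta-like depth-two multizeta values over `F_2[t]`: the classification

`MZ.K2 = F_2(t)`, `MZ.Kinf = F_2((1/t))` (Mathlib's completion of `F_2(t)` at infinity),
`MZ.zeta s = ∑ a⁻ˢ` over all monic `a ∈ F_2[t]`,
`MZ.zeta2 s₁ s₂ = ∑ a₁^{-s₁} a₂^{-s₂}` over all monic `a₁, a₂` with `deg a₁ > deg a₂`,
`MZ.ZetaLike s₁ s₂` : the quotient `zeta2 s₁ s₂ / zeta (s₁ + s₂)` lies in `F_2(t)`,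
`MZ.InL s₁ s₂` : `(s₁, s₂)` is one of `(1,1)`, `(1,3)`, `(3,5)`, `(2^n - 1, 2^n)`,
`(2^n, 2^(n+1) + 2^n - 1)`, `n ≥ 1`.
-/

namespace Pool.Agent.Results.MP_968e92_nt.Classification

/-- Every primitive zeta-like pair of positive integers (for `q = 2`) belongs to the list `L`. -/
theorem result (s₁ s₂ : ℕ) (h₁ : 1 ≤ s₁) (h₂ : 1 ≤ s₂) (hp : ¬ (Even s₁ ∧ Even s₂))
    (hz : MZ.ZetaLike s₁ s₂) : MZ.InL s₁ s₂ :=
  MZ.main_result s₁ s₂ h₁ h₂ hp hz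

end Pool.Agent.Results.MP_968e92_nt.Classification
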